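import Pool.Agent.H438R2.RZ.Core

/-!
# The Bochner-Riesz conjecture for block radial functions

The Bochner-Riesz conjecture in `ℝ^n` (which implies Stein's restriction conjecture for the sphere,
by a theorem of Tao) says that the Bochner-Riesz means of order `δ > 0` are bounded on `L^p`,
`1 < p < ∞`, if `δ > n |1/2 - 1/p| - 1/2`. We prove this, in the full range of `p` and `δ` and in all
dimensions `n = k + m ≥ 3`, for the functions which depend only on the norms `|x'|` and `|x''|` of the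
two components of `x = (x', x'') ∈ ℝ^k × ℝ^m`; for `m = 1` the functions may be arbitrary in the last
variable.

The theorem is in the starting files (`Pool.Agent.H438R2.RZ`, project of helper438), where it had not
been handed in.
-/

set_option autoImplicit false

open MeasureTheory

namespace Pool.Agent.Results.MP_6cbfb8_an.BochnerRieszBlockRadial

/-- `f(x', x'')` depends only on `|x'|` and `|x''|`, `x' ∈ ℝ^k`, `x'' ∈ ℝ^m`; for `m = 1` on `|x'|` and
`x''` -/
def BlockRadial (k m : ℕ) (f : EuclideanSpace ℝ (Fin (k + m)) → ℂ) : Prop :=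
  ∀ x y : EuclideanSpace ℝ (Fin (k + m)),
    ∑ i : Fin k, (x (Fin.castAdd m i)) ^ 2 = ∑ i : Fin k, (y (Fin.castAdd m i)) ^ 2 →
    ∑ i : Fin m, (x (Fin.natAdd k i)) ^ 2 = ∑ i : Fin m, (y (Fin.natAdd k i)) ^ 2 →
    (m = 1 → ∀ i : Fin m, x (Fin.natAdd k i) = y (Fin.natAdd k i)) → f x = f y

/-- `e^(2 π i x)` -/
noncomputable def e (x : ℝ) : ℂ := Complex.exp (((2 * Real.pi * x : ℝ) : ℂ) * Complex.I)

/-- the Fourier transform -/
noncomputable def ft {n : ℕ} (f : EuclideanSpace ℝ (Fin n) → ℂ) (ξ : EuclideanSpace ℝ (Fin n)) : ℂ :=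
  ∫ y : EuclideanSpace ℝ (Fin n), e (-inner ℝ y ξ) * f y

/-- the Bochner-Riesz mean of order `δ`: the Fourier multiplier `max (1 - |ξ| ^ 2) 0 ^ δ` -/
noncomputable def bochnerRiesz {n : ℕ} (δ : ℝ) (f : EuclideanSpace ℝ (Fin n) → ℂ)
    (x : EuclideanSpace ℝ (Fin n)) : ℂ :=
  ∫ ξ : EuclideanSpace ℝ (Fin n), (((max (1 - ‖ξ‖ ^ 2) 0) ^ δ : ℝ) : ℂ) * ft f ξ * e (inner ℝ x ξ)

/-- **The Bochner-Riesz conjecture for block radial functions**, full range. -/
theorem result (k m : ℕ) (hk : 1 ≤ k) (hm : 1 ≤ m) (hkm : 3 ≤ k + m) (p δ : ℝ) (hp : 1 < p)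
    (hδ : 0 < δ) (h : ((k + m : ℕ) : ℝ) * |1 / 2 - 1 / p| - 1 / 2 < δ) :
    ∃ C : ℝ, ∀ f : SchwartzMap (EuclideanSpace ℝ (Fin (k + m))) ℂ, BlockRadial k m (fun x => f x) →
      eLpNorm (bochnerRiesz δ fun x => f x) (ENNReal.ofReal p) volume ≤
        ENNReal.ofReal C * eLpNorm (fun x => f x) (ENNReal.ofReal p) volume :=
  Pool.Agent.H438R2.RZ.CoreAux.main k m hk hm hkm p δ hp hδ h

end Pool.Agent.Results.MP_6cbfb8_an.BochnerRieszBlockRadial
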