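import Pool.Agent.TH218.BRS.Main
import Pool.Agent.TH228.BRM_TBP
import Pool.Agent.TH543.BRM_TB4
import Pool.Agent.TH828.BRM_TB2
import Pool.Agent.TH883.LS.LSB_E4R
import Pool.Agent.Q30.BRZ.PL
set_option autoImplicit false

/-! # The Bochner-Riesz estimate for functions whose slices have level sets of small perimeter

Let `n = m + 2 ≥ 3`. The Bochner-Riesz operator of every order `δ > 0` on `ℝ^n` satisfies
`‖T_δ f‖_p ≤ C ‖f‖_p` for `2 < p ≤ 4`, `(n-3)(p-2) < 1`, for all integrable functions `f` which in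
some orthonormal coordinates `(x, y)`, `x ∈ ℝ^2`, `y ∈ ℝ^(n-2)`, are of the form
`f(x, y) = b(x) F(x, y)` where for each `x` the superlevel sets `S` of the real and imaginary parts
of `±F(x, ·)` satisfy a reversed isoperimetric inequality `Var(1_S)^m ≤ N |S|^(m-1)`; nothing is
assumed on the dependence on `x`. For `n ≤ 4` (and for `n = 5` up to the end point) the interval
contains the range `2 < p ≤ 2n/(n-1)` in which the Bochner-Riesz conjecture asks for the estimate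
with all `δ > 0`.
-/

open MeasureTheory Set
open scoped ENNReal FourierTransform RealInnerProductSpace

namespace Pool.Agent.Results.MP_6cbfb8_an.BochnerRieszIsoperimetricSlices

/-- `ℝ^n` -/
abbrev E (n : ℕ) : Type := EuclideanSpace ℝ (Fin n)

/-- The total variation of `G` in the form
`sup_h |h|⁻¹ ∫ |G(y + h) - G(y)| dy`, `|h|` the Euclidean length; for the indicator function of a
set this is at most the perimeter. -/
noncomputable def variation {m : ℕ} (G : (Fin m → ℝ) → ℂ) : ℝ≥0∞ :=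
  ⨆ h : Fin m → ℝ, (∫⁻ y : Fin m → ℝ, ‖G (y + h) - G y‖ₑ) /
    ENNReal.ofReal (Real.sqrt (∑ i, h i ^ 2))

/-- All superlevel sets `S = {Re(cF) > l}`, `l > 0`, `c ∈ {1, -1, i, -i}`, satisfy
`Var(1_S)^m ≤ N |S|^(m-1)`. -/
def RoundLevels {m : ℕ} (N : ℝ) (F : (Fin m → ℝ) → ℂ) : Prop :=
  ∀ c ∈ ({1, -1, Complex.I, -Complex.I} : Set ℂ), ∀ l : ℝ, 0 < l →
    variation ({y | l < (c * F y).re}.indicator 1) ^ m ≤
      ENNReal.ofReal N * volume {y | l < (c * F y).re} ^ (m - 1)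

/-- The class of functions on `ℝ^(m+2)`: for some orthonormal basis `v_0, …, v_(m+1)`, with
`x = (⟨v_(m+1), z⟩, ⟨v_m, z⟩)` and `y = (⟨v_i, z⟩)_{i<m}`, one has `f(z) = b(x) F(x, y)` with
complex numbers `b(x)` and functions `F(x, ·)` with `RoundLevels N`. -/
def Data (m : ℕ) (N : ℝ) (f : E (m + 2) → ℂ) : Prop :=
  ∃ (v : OrthonormalBasis (Fin (m + 2)) ℝ (E (m + 2))) (b : ℝ × ℝ → ℂ)
    (F : ℝ × ℝ → (Fin m → ℝ) → ℂ), (∀ x, RoundLevels N (F x)) ∧
    ∀ z, f z = b ((⟪v (Fin.last (m + 1)), z⟫ : ℝ), (⟪v (Fin.last m).castSucc, z⟫ : ℝ)) *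
      F ((⟪v (Fin.last (m + 1)), z⟫ : ℝ), (⟪v (Fin.last m).castSucc, z⟫ : ℝ))
        (fun i : Fin m => (⟪v i.castSucc.castSucc, z⟫ : ℝ))

/-- The Bochner-Riesz operator of order `δ`: the inverse Fourier transform of
`(1 - |ζ|²)₊^δ f^(ζ)`. -/
noncomputable def bochnerRiesz {n : ℕ} (δ : ℝ) (f : E n → ℂ) (z : E n) : ℂ :=
  ∫ ζ : E n, Complex.exp (((2 * Real.pi * ⟪z, ζ⟫ : ℝ) : ℂ) * Complex.I) *
    ((((max (1 - ‖ζ‖ ^ 2) 0) ^ δ : ℝ) : ℂ) * 𝓕 f ζ)

/-- **The Bochner-Riesz estimate for functions whose slices have level sets of small perimeter.**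
Let `m ≥ 1` (so that the dimension is `n = m + 2 ≥ 3`), `δ > 0`, `N > 0`, `2 < p ≤ 4` and
`(m-1)(p-2) < 1`. There is a constant `C` such that `∫ |T_δ f|^p ≤ C ∫ |f|^p` for all integrable
`f` on `ℝ^(m+2)` in the class `Data m N`. -/
theorem result (m : ℕ) (hm : 1 ≤ m) (δ p N : ℝ) (hδ : 0 < δ) (hp : 2 < p) (hp4 : p ≤ 4)
    (hpm : ((m : ℝ) - 1) * (p - 2) < 1) (hN : 0 < N) :
    ∃ C : ℝ, 0 < C ∧ ∀ f : E (m + 2) → ℂ, Integrable f → Data m N f →
      ∫⁻ z, ‖bochnerRiesz δ f z‖ₑ ^ p ≤ ENNReal.ofReal C * ∫⁻ z, ‖f z‖ₑ ^ p := by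
  have hTBP : Pool.Agent.TH280.BR.S_TBP := Pool.Agent.TH228.TBP.tbp_thm
    Pool.Agent.TH828.TB2.tb2_thm (Pool.Agent.TH543.TB4.tb4_thm Pool.Agent.Q30.BRZ.pl_thm)
  obtain ⟨C, hC, h⟩ := Pool.Agent.TH218.BRS.br_L hTBP Pool.Agent.TH883.E4R.e4r_thm m hm δ p N hδ
    hp hp4 hpm hN
  refine ⟨C, hC, fun f hf hD => h f hf ?_⟩
  obtain ⟨v, b, F, hF, hfz⟩ := hD
  refine ⟨v.repr, b, F, hF, fun z => ?_⟩
  rw [hfz z, Pool.Agent.TH280.BR.Zb_apply]
  simp only [OrthonormalBasis.repr_apply_apply]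

end Pool.Agent.Results.MP_6cbfb8_an.BochnerRieszIsoperimetricSlices
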