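import Pool.Agent.TH280.BR.K2
import Pool.Agent.TH228.BRM_TBP
import Pool.Agent.TH543.BRM_TB4
import Pool.Agent.TH828.BRM_TB2
import Pool.Agent.TH400.LS_E4
import Pool.Agent.TH89.LS_F
import Pool.Agent.TH807.LS_CL
import Pool.Agent.Q30.BRZ.PL
set_option autoImplicit false

/-! # The Bochner-Riesz estimate for products of piecewise monotone functions

The Bochner-Riesz operator of every order `δ > 0` on `ℝ^n`, `n ≥ 2`, satisfies
`‖T_δ f‖_p ≤ C ‖f‖_p`, `2 ≤ p ≤ 4`, for all integrable functions `f` which in some orthonormal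
coordinates `(x, y)`, `x ∈ ℝ^2`, `y ∈ ℝ^(n-2)`, are products
`b(x) F_1(x, y_1) ⋯ F_(n-2)(x, y_(n-2))` with `b` complex valued and arbitrary and each
`F_i(x, ·)` piecewise monotone with at most `k` pieces. For `n ≥ 3` the interval `2 ≤ p ≤ 4`
contains the whole range `2 ≤ p ≤ 2n/(n-1)` in which the Bochner-Riesz conjecture asks for the
estimate with all `δ > 0`.
-/

open MeasureTheory Set
open scoped ENNReal FourierTransform RealInnerProductSpace

namespace Pool.Agent.Results.MP_6cbfb8_an.BochnerRieszMonotoneProducts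

/-- `ℝ^n` -/
abbrev E (n : ℕ) : Type := EuclideanSpace ℝ (Fin n)

/-- `F` is piecewise monotone with `k` pieces: the line is the union of `k` pairwise disjoint
intervals (of any kind, possibly empty) on each of which `F` is nondecreasing or nonincreasing. -/
def PiecewiseMonotone (k : ℕ) (F : ℝ → ℝ) : Prop :=
  ∃ I : Fin k → Set ℝ, (∀ i, (I i).OrdConnected) ∧ Pairwise (Function.onFun Disjoint I) ∧
    (⋃ i, I i) = Set.univ ∧ ∀ i, MonotoneOn F (I i) ∨ AntitoneOn F (I i)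

/-- The class of functions on `ℝ^(m+2)`: for some orthonormal basis `v_0, …, v_(m+1)`, with
`x = (⟨v_(m+1), z⟩, ⟨v_m, z⟩)` and `y_i = ⟨v_i, z⟩` for `i < m`, one has
`f(z) = b(x) ∏_{i<m} F_i(x, y_i)`, where `b` is any complex function of two variables and
`F_i(x, ·)` is piecewise monotone with `k` pieces for all `i` and `x`. -/
def Data (m k : ℕ) (f : E (m + 2) → ℂ) : Prop :=
  ∃ (v : OrthonormalBasis (Fin (m + 2)) ℝ (E (m + 2))) (b : ℝ × ℝ → ℂ)
    (F : Fin m → ℝ × ℝ → ℝ → ℝ), (∀ i x, PiecewiseMonotone k (F i x)) ∧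
    ∀ z, f z = b ((⟪v (Fin.last (m + 1)), z⟫ : ℝ), (⟪v (Fin.last m).castSucc, z⟫ : ℝ)) *
      ∏ i : Fin m, ((F i ((⟪v (Fin.last (m + 1)), z⟫ : ℝ), (⟪v (Fin.last m).castSucc, z⟫ : ℝ))
        (⟪v i.castSucc.castSucc, z⟫ : ℝ) : ℝ) : ℂ)

/-- The Bochner-Riesz operator of order `δ`: the inverse Fourier transform of
`(1 - |ζ|²)₊^δ f^(ζ)`. -/
noncomputable def bochnerRiesz {n : ℕ} (δ : ℝ) (f : E n → ℂ) (z : E n) : ℂ :=
  ∫ ζ : E n, Complex.exp (((2 * Real.pi * ⟪z, ζ⟫ : ℝ) : ℂ) * Complex.I) *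
    ((((max (1 - ‖ζ‖ ^ 2) 0) ^ δ : ℝ) : ℂ) * 𝓕 f ζ)

/-- **The Bochner-Riesz estimate for products of piecewise monotone functions.** Let
`n = m + 2 ≥ 2`, `k ∈ ℕ`, `δ > 0` and `2 ≤ p ≤ 4`. There is a constant `C` such that
`∫ |T_δ f|^p ≤ C ∫ |f|^p` for all integrable `f` on `ℝ^n` in the class `Data m k`. -/
theorem result (m k : ℕ) (δ p : ℝ) (hδ : 0 < δ) (hp : 2 ≤ p) (hp4 : p ≤ 4) :
    ∃ C : ℝ, 0 < C ∧ ∀ f : E (m + 2) → ℂ, Integrable f → Data m k f →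
      ∫⁻ z, ‖bochnerRiesz δ f z‖ₑ ^ p ≤ ENNReal.ofReal C * ∫⁻ z, ‖f z‖ₑ ^ p := by
  have hTBP : Pool.Agent.TH280.BR.S_TBP := Pool.Agent.TH228.TBP.tbp_thm
    Pool.Agent.TH828.TB2.tb2_thm (Pool.Agent.TH543.TB4.tb4_thm Pool.Agent.Q30.BRZ.pl_thm)
  exact Pool.Agent.TH280.BR.br_A hTBP Pool.Agent.TH400.E4.e4_thm
    (Pool.Agent.TH807.CL.cl_thm Pool.Agent.TH89.F.f_thm) m k δ p hδ hp hp4

end Pool.Agent.Results.MP_6cbfb8_an.BochnerRieszMonotoneProducts
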