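import Pool.Agent.TH218.BRS.Main
import Pool.Agent.TH228.BRM_TBP
import Pool.Agent.TH543.BRM_TB4
import Pool.Agent.TH828.BRM_TB2
import Pool.Agent.TH883.LS.LSB_E4R
import Pool.Agent.TH883.LS.LSB_BALL
import Pool.Agent.TH554.LSB_CLR
import Pool.Agent.Q30.BRZ.PL
set_option autoImplicit false

/-! # The Bochner-Riesz estimate for functions with radially decreasing slices of codimension two

Let `n = m + 2 ≥ 4`. The Bochner-Riesz operator of every order `δ > 0` on `ℝ^n` satisfies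
`‖T_δ f‖_p ≤ C ‖f‖_p` for `2 ≤ p < 2(n-2)/(n-3)`, `p ≤ 4`, for all integrable functions `f` which in
some orthonormal coordinates `(x, y)`, `x ∈ ℝ^2`, `y ∈ ℝ^(n-2)`, are of the form
`f(x, y) = b(x) F(x, |y - c(x)|)` with `F(x, ·)` real and nonincreasing and with arbitrary `b` and
`c`. The interval contains the whole range `2 ≤ p ≤ 2n/(n-1)` in which the Bochner-Riesz conjecture
asks for the estimate with all `δ > 0`.
-/

open MeasureTheory Set
open scoped ENNReal FourierTransform RealInnerProductSpace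

namespace Pool.Agent.Results.MP_6cbfb8_an.BochnerRieszRadialSlices

/-- `ℝ^n` -/
abbrev E (n : ℕ) : Type := EuclideanSpace ℝ (Fin n)

/-- The class of functions on `ℝ^(m+2)`: for some orthonormal basis `v_0, …, v_(m+1)`, with
`x = (⟨v_(m+1), z⟩, ⟨v_m, z⟩)` and `y_i = ⟨v_i, z⟩` for `i < m`, one has
`f(z) = b(x) F(x, |y - c(x)|)`, where `b(x)` is a complex number, `c(x)` is a point of `ℝ^m` and
`F(x, ·)` is real valued and nonincreasing on `[0, ∞)`; nothing is assumed on the dependence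
on `x`. -/
def Data (m : ℕ) (f : E (m + 2) → ℂ) : Prop :=
  ∃ (v : OrthonormalBasis (Fin (m + 2)) ℝ (E (m + 2))) (b : ℝ × ℝ → ℂ) (c : ℝ × ℝ → Fin m → ℝ)
    (F : ℝ × ℝ → ℝ → ℝ), (∀ x, AntitoneOn (F x) (Ici 0)) ∧
    ∀ z, f z = b ((⟪v (Fin.last (m + 1)), z⟫ : ℝ), (⟪v (Fin.last m).castSucc, z⟫ : ℝ)) *
      ((F ((⟪v (Fin.last (m + 1)), z⟫ : ℝ), (⟪v (Fin.last m).castSucc, z⟫ : ℝ))
        (Real.sqrt (∑ i : Fin m, ((⟪v i.castSucc.castSucc, z⟫ : ℝ) -
          c ((⟪v (Fin.last (m + 1)), z⟫ : ℝ), (⟪v (Fin.last m).castSucc, z⟫ : ℝ)) i) ^ 2)) : ℝ) : ℂ)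

/-- The Bochner-Riesz operator of order `δ`: the inverse Fourier transform of
`(1 - |ζ|²)₊^δ f^(ζ)`. -/
noncomputable def bochnerRiesz {n : ℕ} (δ : ℝ) (f : E n → ℂ) (z : E n) : ℂ :=
  ∫ ζ : E n, Complex.exp (((2 * Real.pi * ⟪z, ζ⟫ : ℝ) : ℂ) * Complex.I) *
    ((((max (1 - ‖ζ‖ ^ 2) 0) ^ δ : ℝ) : ℂ) * 𝓕 f ζ)

open Pool.Agent.TH280.LS in
open Pool.Agent.TH280.BR in
/-- the slices satisfy the weighted inequality -/
lemma slice (m : ℕ) (p : ℝ) (hm : 2 ≤ m) (hp : 2 ≤ p) (hpm : p < 2 * m / (m - 1)) :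
    ∃ C2 : ℝ, 0 < C2 ∧ ∀ f : E (m + 2) → ℂ, Data m f → SlB m (fun η => nr η ^ m) p C2 f := by
  obtain ⟨C2, hC2, h⟩ := (Pool.Agent.TH554.CLR.clr_thm Pool.Agent.TH883.BALL.ball_thm) m p hm hp hpm
  refine ⟨C2, hC2, ?_⟩
  rintro f ⟨v, b, c, F, hF, hf⟩
  refine ⟨v.repr, fun w => b (w (Fin.last (m + 1)), w (Fin.last m).castSucc) *
    ((F (w (Fin.last (m + 1)), w (Fin.last m).castSucc)
      (Real.sqrt (∑ i : Fin m, (w i.castSucc.castSucc -
        c (w (Fin.last (m + 1)), w (Fin.last m).castSucc) i) ^ 2)) : ℝ) : ℂ), ?_, ?_⟩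
  · intro z
    rw [hf z]
    simp only [OrthonormalBasis.repr_apply_apply]
  · intro x hx
    have heq : ∀ y : Fin m → ℝ, b (((Zb m).symm (x, y)) (Fin.last (m + 1)),
        ((Zb m).symm (x, y)) (Fin.last m).castSucc) *
        ((F (((Zb m).symm (x, y)) (Fin.last (m + 1)),
          ((Zb m).symm (x, y)) (Fin.last m).castSucc)
          (Real.sqrt (∑ i : Fin m, (((Zb m).symm (x, y)) i.castSucc.castSucc -
            c (((Zb m).symm (x, y)) (Fin.last (m + 1)),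
              ((Zb m).symm (x, y)) (Fin.last m).castSucc) i) ^ 2)) : ℝ) : ℂ) =
        b x * ((F x (nr (y - c x)) : ℝ) : ℂ) := by
      intro y
      have h4 : Zb m ((Zb m).symm (x, y)) = (x, y) := MeasurableEquiv.apply_symm_apply _ _
      rw [Zb_apply] at h4
      have h5 : (((Zb m).symm (x, y)) (Fin.last (m + 1)),
        ((Zb m).symm (x, y)) (Fin.last m).castSucc) = x := congrArg Prod.fst h4
      have h6 : ∀ i : Fin m, ((Zb m).symm (x, y)) i.castSucc.castSucc = y i :=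
        fun i => congrFun (congrArg Prod.snd h4) i
      rw [h5]
      simp only [h6]
      rfl
    simp only [heq] at hx ⊢
    exact h (b x) (c x) (F x) (hF x) hx

/-- **The Bochner-Riesz estimate for functions with radially decreasing slices.** Let `m ≥ 2`
(so that the dimension is `n = m + 2 ≥ 4`), `δ > 0`, `2 ≤ p ≤ 4` and `p < 2m/(m-1)`. There is a
constant `C` such that `∫ |T_δ f|^p ≤ C ∫ |f|^p` for all integrable `f` on `ℝ^(m+2)` in the class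
`Data m`. -/
theorem result (m : ℕ) (hm : 2 ≤ m) (δ p : ℝ) (hδ : 0 < δ) (hp : 2 ≤ p) (hp4 : p ≤ 4)
    (hpm : p < 2 * m / (m - 1)) :
    ∃ C : ℝ, 0 < C ∧ ∀ f : E (m + 2) → ℂ, Integrable f → Data m f →
      ∫⁻ z, ‖bochnerRiesz δ f z‖ₑ ^ p ≤ ENNReal.ofReal C * ∫⁻ z, ‖f z‖ₑ ^ p := by
  have hTBP : Pool.Agent.TH280.BR.S_TBP := Pool.Agent.TH228.TBP.tbp_thm
    Pool.Agent.TH828.TB2.tb2_thm (Pool.Agent.TH543.TB4.tb4_thm Pool.Agent.Q30.BRZ.pl_thm)
  obtain ⟨C2, hC2, hsl⟩ := slice m p hm hp hpm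
  have hne : ∀ᵐ η : Fin m → ℝ, Pool.Agent.TH280.LS.nr η ^ m ≠ 0 := by
    have : Nonempty (Fin m) := ⟨⟨0, by omega⟩⟩
    have h0 : ∀ᵐ η : Fin m → ℝ, η ≠ 0 := by
      rw [ae_iff]
      have h1 : {a : Fin m → ℝ | ¬ a ≠ 0} = {0} := by ext; simp
      rw [h1]
      exact measure_singleton 0
    filter_upwards [h0] with η hη
    exact pow_ne_zero m ((norm_pos_iff.2 hη).trans_le (Pool.Agent.TH218.BRS.norm_le_nrm η)).ne'
  obtain ⟨C, hC, h⟩ := Pool.Agent.TH280.BR.br_gen hTBP m (fun η => Pool.Agent.TH280.LS.nr η ^ m)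
    δ p C2 (Pool.Agent.TH218.BRS.meas_nrm.pow_const m)
    (fun η => pow_nonneg (Pool.Agent.TH218.LS.nr_nonneg η) m) hne
    (Pool.Agent.TH883.E4R.e4r_thm m (by omega)) hδ hp hp4 hC2
  exact ⟨C, hC, fun f hf hc => h f hf (hsl f hc)⟩

end Pool.Agent.Results.MP_6cbfb8_an.BochnerRieszRadialSlices
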